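import Pool.Agent.H91.TC.Targets

/-! # Row NTA: counting in one coordinate -/

set_option autoImplicit false

open Set Function Topology Metric Filter

namespace Pool.Agent.H11.TSC

open Pool.Agent.H88.CL Pool.Agent.H88.CM Pool.Agent.H91.TC

theorem pf_NTA : T_NTA := by
  intro m l A b c R z0 hm hR hmb Z hZ
  have hg : 0 < Nat.gcd l m := Nat.gcd_pos_of_pos_right l (by omega)
  obtain ⟨a, ha⟩ : ∃ a, l = a * Nat.gcd l m := by
    obtain ⟨a, ha⟩ := Nat.gcd_dvd_left l m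
    exact ⟨a, by rw [mul_comm]; exact ha⟩
  have hb : 0 < b := by
    rcases Nat.eq_zero_or_pos b with h | h
    · rw [h, zero_mul] at hmb
      omega
    · exact h
  have hcop : Nat.Coprime a b := by
    have h1 : Nat.gcd (a * Nat.gcd l m) (b * Nat.gcd l m) = Nat.gcd l m := by
      rw [← ha, ← hmb]
    rw [Nat.gcd_mul_right] at h1
    exact Nat.eq_of_mul_eq_mul_right hg (by rw [h1, one_mul])
  have hbR : (0 : ℝ) < (b : ℝ) := by exact_mod_cast hb
  have hgR : (0 : ℝ) < (Nat.gcd l m : ℝ) := by exact_mod_cast hg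
  have hlm : (l : ℝ) / m = (a : ℝ) / b := by
    have h1 : (l : ℝ) = a * (Nat.gcd l m : ℝ) := by exact_mod_cast ha
    have h2 : (m : ℝ) = b * (Nat.gcd l m : ℝ) := by exact_mod_cast hmb
    generalize (Nat.gcd l m : ℝ) = G at h1 h2 hgR
    rw [h1, h2, mul_div_mul_right _ _ hgR.ne']
  have hT : ∀ z, z ∈ Z → ∃ t : ℤ, |c + l * z / m - t| ≤ R := fun z hz => (hZ z hz).2.2
  choose! T hT using hT
  have hN : ∀ z ∈ Z, |(b : ℝ) * c - ((b * T z - a * z : ℤ) : ℝ)| ≤ R * b := by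
    intro z hz
    have h1 := hT z hz
    have h2 : (b : ℝ) * c - ((b * T z - a * z : ℤ) : ℝ) = b * (c + l * z / m - T z) := by
      have h3 : (l : ℝ) * z / m = (a : ℝ) / b * z := by
        rw [← hlm]
        ring
      rw [h3]
      push_cast
      field_simp
      ring
    rw [h2, abs_mul, abs_of_pos hbR, mul_comm R]
    exact mul_le_mul_of_nonneg_left h1 hbR.le
  let F : ℤ → ℕ × ℤ := fun z => (((z - z0) / b).toNat, b * T z - a * z)
  let W : Finset (ℕ × ℤ) := Finset.range (A / b + 1) ×ˢ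
    Finset.Icc ⌈(b : ℝ) * c - R * b⌉ ⌊(b : ℝ) * c + R * b⌋
  have hmaps : ∀ z ∈ Z, F z ∈ W := by
    intro z hz
    obtain ⟨h1, h2, _⟩ := hZ z hz
    rw [Finset.mem_product, Finset.mem_range, Finset.mem_Icc]
    have h3 := abs_le.1 (hN z hz)
    refine ⟨?_, Int.ceil_le.2 (by linarith [h3.2]), Int.le_floor.2 (by linarith [h3.1])⟩
    change ((z - z0) / b).toNat < A / b + 1
    have h4 : (z - z0) / (b : ℤ) ≤ (A : ℤ) / b :=
      Int.ediv_le_ediv (by exact_mod_cast hb) (by omega)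
    have h5 : ((A / b : ℕ) : ℤ) = (A : ℤ) / b := by push_cast; rfl
    have h6 := Int.toNat_le_toNat h4
    rw [← h5, Int.toNat_natCast] at h6
    exact Nat.lt_succ_of_le h6
  have hinj : Set.InjOn F Z := by
    intro z hz z' hz' h
    obtain ⟨h1, h2, _⟩ := hZ z (Finset.mem_coe.1 hz)
    obtain ⟨h1', h2', _⟩ := hZ z' (Finset.mem_coe.1 hz')
    have e1 : ((z - z0) / (b : ℤ)).toNat = ((z' - z0) / (b : ℤ)).toNat := congrArg Prod.fst h
    have e2 : (b : ℤ) * T z - a * z = b * T z' - a * z' := congrArg Prod.snd h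
    have hb' : (0 : ℤ) < b := by exact_mod_cast hb
    have n1 : 0 ≤ (z - z0) / (b : ℤ) := Int.ediv_nonneg (by omega) hb'.le
    have n2 : 0 ≤ (z' - z0) / (b : ℤ) := Int.ediv_nonneg (by omega) hb'.le
    have e3 : (z - z0) / (b : ℤ) = (z' - z0) / (b : ℤ) := by
      rw [← Int.toNat_of_nonneg n1, ← Int.toNat_of_nonneg n2, e1]
    have hdvd : (b : ℤ) ∣ a * (z - z') := ⟨T z - T z', by linarith⟩
    have hdvd2 : (b : ℤ) ∣ z - z' :=
      IsCoprime.dvd_of_dvd_mul_left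
        ((Nat.isCoprime_iff_coprime.2 hcop).symm) hdvd
    have e4 : (z - z0) % (b : ℤ) = (z' - z0) % (b : ℤ) := by
      have h5 : (z - z0) - (z' - z0) = z - z' := by ring
      have h6 : (b : ℤ) ∣ (z - z0) - (z' - z0) := by rw [h5]; exact hdvd2
      exact (Int.emod_emod_of_dvd _ (dvd_refl _)).symm.trans
        (((Int.emod_emod_of_dvd _ (dvd_refl _)).trans
          ((Int.ModEq.symm (Int.modEq_iff_dvd.2 h6)))).trans rfl)
    have d1 := Int.mul_ediv_add_emod (z - z0) b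
    have d2 := Int.mul_ediv_add_emod (z' - z0) b
    rw [e3, e4] at d1
    linarith
  have hcard : Z.card ≤ W.card := Finset.card_le_card_of_injOn F hmaps hinj
  have hW : W.card = (A / b + 1) *
      (⌊(b : ℝ) * c + R * b⌋ + 1 - ⌈(b : ℝ) * c - R * b⌉).toNat := by
    rw [Finset.card_product, Finset.card_range, Int.card_Icc]
  rw [hW] at hcard
  have c1 : ((A / b + 1 : ℕ) : ℝ) ≤ (A : ℝ) / b + 1 := by
    push_cast
    have := @Nat.cast_div_le ℝ _ _ _ A b
    linarith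
  have c2 : ((⌊(b : ℝ) * c + R * b⌋ + 1 - ⌈(b : ℝ) * c - R * b⌉).toNat : ℝ) ≤
      2 * R * b + 1 := by
    have h1 := Int.floor_le ((b : ℝ) * c + R * b)
    have h2 := Int.le_ceil ((b : ℝ) * c - R * b)
    have h3 : 0 ≤ R * b := mul_nonneg hR hbR.le
    rcases le_or_gt 0 (⌊(b : ℝ) * c + R * b⌋ + 1 - ⌈(b : ℝ) * c - R * b⌉) with h | h
    · have h4 : (((⌊(b : ℝ) * c + R * b⌋ + 1 - ⌈(b : ℝ) * c - R * b⌉).toNat : ℤ) : ℝ) =
          ((⌊(b : ℝ) * c + R * b⌋ + 1 - ⌈(b : ℝ) * c - R * b⌉ : ℤ) : ℝ) := by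
        rw [Int.toNat_of_nonneg h]
      rw [Int.cast_natCast] at h4
      rw [h4]
      push_cast
      linarith
    · rw [Int.toNat_of_nonpos h.le]
      push_cast
      linarith
  calc (Z.card : ℝ) ≤ (((A / b + 1) *
        (⌊(b : ℝ) * c + R * b⌋ + 1 - ⌈(b : ℝ) * c - R * b⌉).toNat : ℕ) : ℝ) := by
        exact_mod_cast hcard
    _ = ((A / b + 1 : ℕ) : ℝ) *
        ((⌊(b : ℝ) * c + R * b⌋ + 1 - ⌈(b : ℝ) * c - R * b⌉).toNat : ℝ) := by
        rw [Nat.cast_mul]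
    _ ≤ ((A : ℝ) / b + 1) * (2 * R * b + 1) :=
        mul_le_mul c1 c2 (Nat.cast_nonneg _) (by positivity)

end Pool.Agent.H11.TSC
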